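import Pool.Agent.TH507.SupC

/-!
# Algebraic independence of `π` and exponentials of algebraic numbers off the axes

Let `t` be a real transcendental number, for instance `t = π`.

(1) Let `α_1, …, α_n` be algebraic numbers such that the `2 n` numbers `α_j` and their complex
conjugates are linearly independent over `ℚ`. Then `t, e ^ α_1, …, e ^ α_n` are algebraically
independent over the algebraic numbers.

(2) In particular the four numbers `t + e ^ α`, `t - e ^ α`, `t e ^ α`, `t / e ^ α` are transcendental
for every algebraic `α` which is neither real nor purely imaginary. (For `t = π` and `α = 1` these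
are the first four of the nine numbers of the problem.)

Proof. Let `V` be the rational space spanned by the `α_j`. If `t` is algebraic over the field
generated by the algebraic numbers and `e ^ V`, then complex conjugation shows that it is also
algebraic over the one of the conjugate space. Exponentials of linearly independent algebraic
numbers are independent elements of the matroid of algebraic dependence (Lindemann-Weierstrass), so
that `t` is algebraic over the exponentials of the intersection of `V` and its conjugate, which is
`0`.
-/

set_option autoImplicit false

namespace Pool.Agent.Results.MP_a2f59b_nt.ExponentsOffTheAxes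

theorem result :
    -- `π` is one of the numbers `t` below
    Transcendental ℚ (Real.pi : ℂ) ∧
    ∀ t : ℝ, Transcendental ℚ (t : ℂ) →
      (∀ (n : ℕ) (α : Fin n → ℂ), (∀ i, IsAlgebraic ℚ (α i)) →
        LinearIndependent ℚ (Sum.elim α (fun i => (starRingEnd ℂ) (α i))) →
        AlgebraicIndependent (algebraicClosure ℚ ℂ)
          (fun o : Option (Fin n) => o.elim (t : ℂ) (fun i => Complex.exp (α i)))) ∧
      (∀ α : ℂ, IsAlgebraic ℚ α → α.re ≠ 0 → α.im ≠ 0 →
        Transcendental ℚ ((t : ℂ) + Complex.exp α) ∧ Transcendental ℚ ((t : ℂ) - Complex.exp α) ∧
        Transcendental ℚ ((t : ℂ) * Complex.exp α) ∧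
        Transcendental ℚ ((t : ℂ) / Complex.exp α)) :=
  ⟨Pool.Agent.H340R2.LW.transcendental_pi_complex, fun _ ht =>
    ⟨fun n α hα hli => Pool.Agent.TH507.ExpE.real_indep ht n α hα hli,
      fun _ hα hre him => Pool.Agent.TH507.ExpE.four ht hα hre him⟩⟩

end Pool.Agent.Results.MP_a2f59b_nt.ExponentsOffTheAxes
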