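import Pool.Agent.TH426.TC.Trd

/-!
# Points of a circle at which the exponential function is algebraic

Let `z, w` be complex numbers, `z ≠ 0`, such that `e ^ z` and `e ^ w` are algebraic and `|w|² / |z|²` is
rational. If `w` is not a rational multiple of `z` or of its conjugate, then the four real numbers
`Re z, Im z, Re w, Im w` generate a field of transcendence degree at least two.

Special cases (`K_π` and `K_e` denote the algebraic closures of `ℚ(π)` and of `ℚ(e)`):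

* `z = π i`: if `w ∈ K_π`, `Re w ≠ 0` and `|w|² ∈ ℚ π²`, then `e ^ w` is transcendental, for instance
  `e ^ (√π + i √(π² - π))`;
* `z = π²`: if `e ^ (π²)` is algebraic, then `e ^ w` is transcendental for all the other points `w`,
  `w ≠ ± π²`, of the circle `|w| = π²` with `w ∈ K_π`, and for all `w ∈ K_π` with `|w|² ∈ ℚ π⁴` which
  are not rational multiples of `π²`;
* `z = e`: the same for `e ^ e`, the circle `|w| = e` and `K_e`.

Proof: `z · q z̄ = w · w̄` is a singular `2 × 2` matrix of logarithms of algebraic numbers, to which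
the theorem of Brownawell and Waldschmidt applies.
-/

set_option autoImplicit false

namespace Pool.Agent.Results.MP_a2f59b_nt.PointsOnCircles

open P426.TC

theorem result :
    (∀ z w : ℂ, z ≠ 0 → IsAlgebraic ℚ (Complex.exp z) → IsAlgebraic ℚ (Complex.exp w) →
      (∃ q : ℚ, ‖w‖ ^ 2 = q * ‖z‖ ^ 2) →
      (∃ r : ℚ, w = r * z) ∨ (∃ r : ℚ, w = r * (starRingEnd ℂ) z) ∨
      2 ≤ Algebra.trdeg ℚ (IntermediateField.adjoin ℚ
        {(z.re : ℂ), (z.im : ℂ), (w.re : ℂ), (w.im : ℂ)})) ∧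
    -- special case `z = π i`
    (∀ w : ℂ, IsAlgebraic (IntermediateField.adjoin ℚ {(Real.pi : ℂ)}) w → w.re ≠ 0 →
      (∃ q : ℚ, ‖w‖ ^ 2 = q * Real.pi ^ 2) → Transcendental ℚ (Complex.exp w)) ∧
    -- special case `z = π²`
    (IsAlgebraic ℚ (Real.exp (Real.pi ^ 2)) → ∀ w : ℂ,
      IsAlgebraic (IntermediateField.adjoin ℚ {(Real.pi : ℂ)}) w →
      (∃ q : ℚ, ‖w‖ ^ 2 = q * Real.pi ^ 4) → (¬ ∃ r : ℚ, w = r * (Real.pi : ℂ) ^ 2) →
      Transcendental ℚ (Complex.exp w)) ∧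
    -- special case `z = e`
    (IsAlgebraic ℚ (Real.exp (Real.exp 1)) → ∀ w : ℂ,
      IsAlgebraic (IntermediateField.adjoin ℚ {(Real.exp 1 : ℂ)}) w →
      (∃ q : ℚ, ‖w‖ ^ 2 = q * Real.exp 1 ^ 2) → (¬ ∃ r : ℚ, w = r * (Real.exp 1 : ℂ)) →
      Transcendental ℚ (Complex.exp w)) := by
  have hexp : Transcendental ℚ (Real.exp 1) := Pool.Agent.H340R2.LW.transcendental_exp_one
  have hpi : Transcendental ℚ Real.pi := Pool.Agent.H340R2.LW.transcendental_pi
  refine ⟨fun z w hz ez ew ⟨q, hq⟩ => pair_trdeg hz ez ew hq, ?_, ?_, ?_⟩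
  · rintro w ow hre ⟨q, hq⟩
    refine conic ow hre 1 0 0 q 0 1 ?_
    have h1 : ‖w‖ ^ 2 = w.re ^ 2 + w.im ^ 2 := by
      rw [← Complex.normSq_eq_norm_sq, Complex.normSq_apply]; ring
    rw [h1] at hq
    push_cast
    linarith
  · rintro hal z oz ⟨q, hq⟩ hno ez
    have h0 : ((Real.pi : ℂ) ^ 2) ≠ 0 := by
      have : (Real.pi : ℂ) ≠ 0 := by exact_mod_cast Real.pi_ne_zero
      exact pow_ne_zero 2 this
    have h1 : IsAlgebraic ℚ (Complex.exp ((Real.pi : ℂ) ^ 2)) := by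
      have := hal.algebraMap (A := ℂ)
      have h2 : (algebraMap ℝ ℂ) (Real.exp (Real.pi ^ 2)) = Complex.exp ((Real.pi : ℂ) ^ 2) := by
        simp
      rwa [h2] at this
    have h3 : ‖z‖ ^ 2 = q * ‖((Real.pi : ℂ) ^ 2)‖ ^ 2 := by
      rw [hq, norm_pow, Complex.norm_real, Real.norm_eq_abs, abs_of_pos Real.pi_pos]; ring
    rcases pair hpi h0 ((over_self _).pow 2) oz h1 ez h3 with ⟨r, hr⟩ | ⟨r, hr⟩
    · exact hno ⟨r, hr⟩
    · refine hno ⟨r, ?_⟩
      rw [hr, map_pow, Complex.conj_ofReal]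
  · rintro hal z oz ⟨q, hq⟩ hno ez
    have h0 : ((Real.exp 1 : ℝ) : ℂ) ≠ 0 := by exact_mod_cast (Real.exp_pos 1).ne'
    have h1 : IsAlgebraic ℚ (Complex.exp ((Real.exp 1 : ℝ) : ℂ)) := by
      have := hal.algebraMap (A := ℂ)
      have h2 : (algebraMap ℝ ℂ) (Real.exp (Real.exp 1)) = Complex.exp ((Real.exp 1 : ℝ) : ℂ) := by
        simp
      rwa [h2] at this
    have h3 : ‖z‖ ^ 2 = q * ‖((Real.exp 1 : ℝ) : ℂ)‖ ^ 2 := by
      rw [hq, Complex.norm_real, Real.norm_eq_abs, abs_of_pos (Real.exp_pos 1)]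
    rcases pair hexp h0 (over_self _) oz h1 ez h3 with ⟨r, hr⟩ | ⟨r, hr⟩
    · exact hno ⟨r, hr⟩
    · refine hno ⟨r, ?_⟩
      rw [hr, Complex.conj_ofReal]

end Pool.Agent.Results.MP_a2f59b_nt.PointsOnCircles
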