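import Pool.Agent.TH426.TC.Pi

/-!
# Rational conics related to `π`

Let `x ≠ 0` and `y` be real numbers which are algebraic over `ℚ(π)`, and suppose that there are
rational numbers `a, b, c, d, e, f` with `x² + (a y + b π)² = (c y + d π) (e y + f π)`. Then at least
one of the numbers `e ^ x`, `e ^ (i y)` is transcendental; in other words, `e ^ (x + i y)` is
transcendental.

For instance, at least one of `e ^ x`, `e ^ (i √(π² - x²))` is transcendental for every real
`x ≠ 0` algebraic over `ℚ(π)` with `|x| ≤ π`, and at least one of `e ^ (π ^ (3/2))`, `e ^ (i π²)` is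
transcendental. In particular (`x = π²`), if `e ^ (π²)` is algebraic then `e ^ (i y)` is transcendental
for all the numbers `y` on these conics, for instance for `y = π³` and `y = √(n π² - π⁴)`, `n ≥ 10`.

Proof: if `e ^ x` and `e ^ (i y)` are algebraic, then
`(x + i (a y + b π)) (x - i (a y + b π)) = - (i (c y + d π)) (i (e y + f π))` is a singular `2 × 2`
matrix of logarithms of algebraic numbers in a field of transcendence degree one.
-/

set_option autoImplicit false

namespace Pool.Agent.Results.MP_a2f59b_nt.RationalConics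

theorem result :
    (∀ x y : ℝ, IsAlgebraic (IntermediateField.adjoin ℚ {(Real.pi : ℂ)}) (x : ℂ) →
      IsAlgebraic (IntermediateField.adjoin ℚ {(Real.pi : ℂ)}) (y : ℂ) → x ≠ 0 →
      (∃ a b c d e f : ℚ, x ^ 2 + (a * y + b * Real.pi) ^ 2 =
        (c * y + d * Real.pi) * (e * y + f * Real.pi)) →
      Transcendental ℚ (Real.exp x) ∨ Transcendental ℚ (Complex.exp (Complex.I * y))) ∧
    -- special case `x = π²`
    (IsAlgebraic ℚ (Real.exp (Real.pi ^ 2)) →
      ∀ y : ℝ, IsAlgebraic (IntermediateField.adjoin ℚ {(Real.pi : ℂ)}) (y : ℂ) →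
      (∃ a b c d e f : ℚ, Real.pi ^ 4 + (a * y + b * Real.pi) ^ 2 =
        (c * y + d * Real.pi) * (e * y + f * Real.pi)) →
      Transcendental ℚ (Complex.exp (Complex.I * y))) := by
  have main : ∀ x y : ℝ, IsAlgebraic (IntermediateField.adjoin ℚ {(Real.pi : ℂ)}) (x : ℂ) →
      IsAlgebraic (IntermediateField.adjoin ℚ {(Real.pi : ℂ)}) (y : ℂ) → x ≠ 0 →
      (∃ a b c d e f : ℚ, x ^ 2 + (a * y + b * Real.pi) ^ 2 =
        (c * y + d * Real.pi) * (e * y + f * Real.pi)) →
      Transcendental ℚ (Real.exp x) ∨ Transcendental ℚ (Complex.exp (Complex.I * y)) := by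
    rintro x y ox oy hx0 ⟨a, b, c, d, e, f, h⟩
    by_contra hcon
    push Not at hcon
    obtain ⟨h1, h2⟩ := hcon
    rw [Transcendental, not_not] at h1 h2
    have hre : ((x : ℂ) + y * Complex.I).re = x := by simp
    have him : ((x : ℂ) + y * Complex.I).im = y := by simp
    refine P426.TC.conic (z := (x : ℂ) + y * Complex.I) (ox.add (oy.mul (P426.TC.over_I _)))
      (by rw [hre]; exact hx0) a b c d e f (by rw [hre, him]; exact h) ?_
    rw [Complex.exp_add, mul_comm (y : ℂ) Complex.I]
    refine IsAlgebraic.mul ?_ h2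
    have h3 := h1.algebraMap (A := ℂ)
    have h4 : (algebraMap ℝ ℂ) (Real.exp x) = Complex.exp (x : ℂ) := by simp
    rwa [h4] at h3
  refine ⟨main, fun hal y oy hcon => ?_⟩
  have h1 : IsAlgebraic (IntermediateField.adjoin ℚ {(Real.pi : ℂ)}) ((Real.pi ^ 2 : ℝ) : ℂ) := by
    push_cast
    exact (P426.TC.over_self _).pow 2
  have h2 : (Real.pi ^ 2 : ℝ) ≠ 0 := pow_ne_zero 2 Real.pi_ne_zero
  obtain ⟨a, b, c, d, e, f, h⟩ := hcon
  rcases main (Real.pi ^ 2) y h1 oy h2 ⟨a, b, c, d, e, f, by rw [← h]; ring⟩ with h3 | h3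
  · exact absurd hal h3
  · exact h3

end Pool.Agent.Results.MP_a2f59b_nt.RationalConics
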