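import Pool.Agent.TH577.RF.Real

/-!
# The nine numbers in families of rational functions over number fields

Let `M` be a number field of degree `D` and `n ≥ 1`. We consider the rational functions `R` of
degree at most `n` with coefficients in `M` (an infinite dimensional rational vector space of
values `R(t)`), and the polynomials of degree at most `n`.

(A) Let `t` be a transcendental complex number and `y ≠ 0` a complex number. The values `R(t)` for
which `t` and `e ^ (y R(t))` are algebraically dependent span a rational vector space of dimension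
at most `8 D n - 2`, and at most `4 D n` if `t` and `y` are algebraically dependent.

(B) The dimension `w` of the space spanned by the values of the polynomials with this property
satisfies `(w + 1) ^ 2 ≤ 4 D ^ 2 + 8 D n` and `w ^ 2 ≤ D ^ 2 + 4 D n`, respectively.

(C), (D) The nine numbers `π + e`, `π - e`, `π e`, `π / e`, `e ^ (π²)` (with `x = 1`, `1`, `1`,
`1`, `π²` in the first family), `e ^ e` (second family, `x = e`), `π ^ π`, `π ^ √2` (third family,
`x = π`, `x = √2`), `π ^ e` (fourth family, `x = e`), each of these families with real `M`.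

The proof uses the theorem on the degrees of elements with algebraic exponentials in a field of
transcendence degree one, `deg_1`, `deg_L` of the starting file `Pool/Agent/W243/TD/Deg.lean`, and
the linear subgroup theorem in transcendence degree one, `prod1`, `prod2` of
`Pool/Agent/W243/TD/Main.lean`; the start result `Families` of MP_a49cf6_nt is (B) and (D) for
polynomials over `ℚ` (`D = 1`).
-/

set_option autoImplicit false

namespace Pool.Agent.Results.MP_a2f59b_nt.RationalFunctionFamilies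

open Polynomial Module
open Pool.Agent.W243.TD Pool.Agent.TH577.RF

/-- The values at `t` of the rational functions `P / Q` of degree at most `n` with coefficients in
`M`. -/
def rationalValues {E : Type} [Field E] [Algebra ℚ E] (M : IntermediateField ℚ E) (t : E) (n : ℕ) :
    Set E :=
  {z | ∃ P Q : M[X], P.natDegree ≤ n ∧ Q.natDegree ≤ n ∧ aeval t Q ≠ 0 ∧
    z = aeval t P / aeval t Q}

/-- The values at `t` of the polynomials of degree at most `n` with coefficients in `M`. -/
def polynomialValues {E : Type} [Field E] [Algebra ℚ E] (M : IntermediateField ℚ E) (t : E)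
    (n : ℕ) : Set E :=
  {z | ∃ P : M[X], P.natDegree ≤ n ∧ z = aeval t P}

/-- The dimension of the rational vector space spanned by the set `S`. -/
noncomputable def dim {E : Type} [AddCommGroup E] [Module ℚ E] (S : Set E) : Cardinal :=
  Module.rank ℚ (Submodule.span ℚ S)

/-- The numbers `π + e ^ x`, `π - e ^ x`, `π * e ^ x`, `π / e ^ x` and `e ^ x` are
transcendental. -/
def AllTranscendental (x : ℝ) : Prop :=
  Transcendental ℚ (Real.pi + Real.exp 1 ^ x) ∧ Transcendental ℚ (Real.pi - Real.exp 1 ^ x) ∧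
  Transcendental ℚ (Real.pi * Real.exp 1 ^ x) ∧ Transcendental ℚ (Real.pi / Real.exp 1 ^ x) ∧
  Transcendental ℚ (Real.exp 1 ^ x)

theorem exp_one_rpow (x : ℝ) : (((Real.exp 1) ^ x : ℝ) : ℂ) = Complex.exp (1 * (x : ℂ)) := by
  rw [Real.exp_one_rpow, one_mul, Complex.ofReal_exp]

theorem rpow_eq {b x : ℝ} (hb : 0 < b) :
    ((b ^ x : ℝ) : ℂ) = Complex.exp ((Real.log b : ℝ) * (x : ℂ)) := by
  rw [Real.rpow_def_of_pos hb]
  push_cast
  rfl

theorem pi_tr : Transcendental ℚ ((Real.pi : ℝ) : ℂ) :=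
  Pool.Agent.H340R2.LW.transcendental_pi_complex

theorem e_tr : Transcendental ℚ ((Real.exp 1 : ℝ) : ℂ) := by
  have := Pool.Agent.H340R2.LW.transcendental_exp_one_complex
  simpa using this

theorem all_al {x : ℝ} (h : ¬ AllTranscendental x) : Al (Real.pi : ℂ) (Complex.exp (1 * (x : ℂ))) := by
  rw [← exp_one_rpow]
  set a := Real.exp 1 ^ x with ha
  have ha0 : a ≠ 0 := (Real.rpow_pos_of_pos (Real.exp_pos 1) x).ne'
  have hac : (a : ℂ) ≠ 0 := by exact_mod_cast ha0
  have hp := al_self (Real.pi : ℂ)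
  have up : ∀ u : ℝ, IsAlgebraic ℚ u → Al (Real.pi : ℂ) (u : ℂ) := fun u hu =>
    al_of_alg (real_alg hu)
  have hpi0 : ((Real.pi : ℝ) : ℂ) ≠ 0 := by exact_mod_cast Real.pi_ne_zero
  unfold AllTranscendental at h
  rw [← ha] at h
  simp only [not_and_or] at h
  rcases h with h | h | h | h | h
  · have h1 := (up _ (not_not.1 h)).sub hp
    push_cast at h1
    rwa [add_sub_cancel_left] at h1
  · have h1 := hp.sub (up _ (not_not.1 h))
    push_cast at h1
    rwa [sub_sub_cancel] at h1
  · have h1 := (up _ (not_not.1 h)).mul hp.inv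
    push_cast at h1
    rwa [mul_comm (Real.pi : ℂ), mul_assoc, mul_inv_cancel₀ hpi0, mul_one] at h1
  · have h1 := hp.mul (up _ (not_not.1 h)).inv
    push_cast at h1
    rwa [inv_div, mul_div_assoc', mul_comm, mul_div_assoc, div_self hpi0, mul_one] at h1
  · exact up _ (not_not.1 h)

theorem log_pi_ne : ((Real.log Real.pi : ℝ) : ℂ) ≠ 0 := by
  have : 0 < Real.log Real.pi := Real.log_pos (by linarith [Real.pi_gt_three])
  exact_mod_cast this.ne'

theorem one_al (t : ℂ) : Al t 1 := isAlgebraic_one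

theorem result :
    -- (A) rational functions over a number field
    (∀ (M : IntermediateField ℚ ℂ) (D n : ℕ), FiniteDimensional ℚ M → finrank ℚ M = D → 1 ≤ n →
      ∀ t y : ℂ, Transcendental ℚ t → y ≠ 0 →
      dim {z | z ∈ rationalValues M t n ∧ ¬ AlgebraicIndependent ℚ ![t, Complex.exp (y * z)]} ≤
        (8 * D * n - 2 : ℕ) ∧
      (¬ AlgebraicIndependent ℚ ![t, y] →
        dim {z | z ∈ rationalValues M t n ∧ ¬ AlgebraicIndependent ℚ ![t, Complex.exp (y * z)]} ≤
          (4 * D * n : ℕ))) ∧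
    -- (B) polynomials over a number field
    (∀ (M : IntermediateField ℚ ℂ) (D n : ℕ), FiniteDimensional ℚ M → finrank ℚ M = D →
      ∀ t y : ℂ, Transcendental ℚ t → y ≠ 0 → ∃ w : ℕ,
      dim {z | z ∈ polynomialValues M t n ∧ ¬ AlgebraicIndependent ℚ ![t, Complex.exp (y * z)]} =
        w ∧
      (w + 1) ^ 2 ≤ 4 * D ^ 2 + 8 * D * n ∧
      (¬ AlgebraicIndependent ℚ ![t, y] → w ^ 2 ≤ D ^ 2 + 4 * D * n)) ∧
    -- (C) the nine numbers, rational functions
    (∀ (M : IntermediateField ℚ ℝ) (D n : ℕ), FiniteDimensional ℚ M → finrank ℚ M = D → 1 ≤ n →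
      dim {x | x ∈ rationalValues M Real.pi n ∧ ¬ AllTranscendental x} ≤ (4 * D * n : ℕ) ∧
      dim {x | x ∈ rationalValues M (Real.exp 1) n ∧
        ¬ AlgebraicIndependent ℚ ![Real.exp 1, Real.exp 1 ^ x]} ≤ (4 * D * n : ℕ) ∧
      dim {x | x ∈ rationalValues M Real.pi n ∧
        ¬ AlgebraicIndependent ℚ ![Real.pi, Real.pi ^ x]} ≤ (8 * D * n - 2 : ℕ) ∧
      dim {x | x ∈ rationalValues M (Real.exp 1) n ∧
        ¬ AlgebraicIndependent ℚ ![Real.exp 1, Real.pi ^ x]} ≤ (8 * D * n - 2 : ℕ)) ∧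
    -- (D) the nine numbers, polynomials
    (∀ (M : IntermediateField ℚ ℝ) (D n : ℕ), FiniteDimensional ℚ M → finrank ℚ M = D →
      ∃ w₁ w₂ w₃ w₄ : ℕ,
      dim {x | x ∈ polynomialValues M Real.pi n ∧ ¬ AllTranscendental x} = w₁ ∧
      dim {x | x ∈ polynomialValues M (Real.exp 1) n ∧
        ¬ AlgebraicIndependent ℚ ![Real.exp 1, Real.exp 1 ^ x]} = w₂ ∧
      dim {x | x ∈ polynomialValues M Real.pi n ∧
        ¬ AlgebraicIndependent ℚ ![Real.pi, Real.pi ^ x]} = w₃ ∧
      dim {x | x ∈ polynomialValues M (Real.exp 1) n ∧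
        ¬ AlgebraicIndependent ℚ ![Real.exp 1, Real.pi ^ x]} = w₄ ∧
      w₁ ^ 2 ≤ D ^ 2 + 4 * D * n ∧ w₂ ^ 2 ≤ D ^ 2 + 4 * D * n ∧
      (w₃ + 1) ^ 2 ≤ 4 * D ^ 2 + 8 * D * n ∧ (w₄ + 1) ^ 2 ≤ 4 * D ^ 2 + 8 * D * n) := by
  refine ⟨?_, ?_, ?_, ?_⟩
  · intro M D n hM hD hn t y ht hy
    have h := rank_bound M ht hy hn
      {z | z ∈ rationalValues M t n ∧ ¬ AlgebraicIndependent ℚ ![t, Complex.exp (y * z)]}
      (fun z hz => ⟨hz.1, dep_al ht hz.2⟩)
    rw [hD] at h
    exact ⟨h.1, fun hyt => h.2 (dep_al ht hyt)⟩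
  · intro M D n hM hD t y ht hy
    obtain ⟨w, h1, h2, h3⟩ := pol_rank M ht hy n
      {z | z ∈ polynomialValues M t n ∧ ¬ AlgebraicIndependent ℚ ![t, Complex.exp (y * z)]}
      (fun z hz => ⟨hz.1, dep_al ht hz.2⟩)
    rw [hD] at h2 h3
    exact ⟨w, h1, h2, fun hyt => h3 (dep_al ht hyt)⟩
  · intro M D n hM hD hn
    refine ⟨?_, ?_, ?_, ?_⟩
    · have h := real_rank M pi_tr one_ne_zero hn
        {x | x ∈ rationalValues M Real.pi n ∧ ¬ AllTranscendental x}
        (fun x hx => ⟨hx.1, all_al hx.2⟩)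
      rw [hD] at h
      exact h.2 (one_al _)
    · have h := real_rank M e_tr one_ne_zero hn
        {x | x ∈ rationalValues M (Real.exp 1) n ∧
          ¬ AlgebraicIndependent ℚ ![Real.exp 1, Real.exp 1 ^ x]}
        (fun x hx => ⟨hx.1, by rw [← exp_one_rpow]; exact real_al e_tr hx.2⟩)
      rw [hD] at h
      exact h.2 (one_al _)
    · have h := real_rank M pi_tr log_pi_ne hn
        {x | x ∈ rationalValues M Real.pi n ∧ ¬ AlgebraicIndependent ℚ ![Real.pi, Real.pi ^ x]}
        (fun x hx => ⟨hx.1, by rw [← rpow_eq Real.pi_pos]; exact real_al pi_tr hx.2⟩)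
      rw [hD] at h
      exact h.1
    · have h := real_rank M e_tr log_pi_ne hn
        {x | x ∈ rationalValues M (Real.exp 1) n ∧
          ¬ AlgebraicIndependent ℚ ![Real.exp 1, Real.pi ^ x]}
        (fun x hx => ⟨hx.1, by rw [← rpow_eq Real.pi_pos]; exact real_al e_tr hx.2⟩)
      rw [hD] at h
      exact h.1
  · intro M D n hM hD
    obtain ⟨w₁, a1, -, a3⟩ := real_pol M pi_tr one_ne_zero n
      {x | x ∈ polynomialValues M Real.pi n ∧ ¬ AllTranscendental x}
      (fun x hx => ⟨hx.1, all_al hx.2⟩)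
    obtain ⟨w₂, b1, -, b3⟩ := real_pol M e_tr one_ne_zero n
      {x | x ∈ polynomialValues M (Real.exp 1) n ∧
        ¬ AlgebraicIndependent ℚ ![Real.exp 1, Real.exp 1 ^ x]}
      (fun x hx => ⟨hx.1, by rw [← exp_one_rpow]; exact real_al e_tr hx.2⟩)
    obtain ⟨w₃, c1, c2, -⟩ := real_pol M pi_tr log_pi_ne n
      {x | x ∈ polynomialValues M Real.pi n ∧ ¬ AlgebraicIndependent ℚ ![Real.pi, Real.pi ^ x]}
      (fun x hx => ⟨hx.1, by rw [← rpow_eq Real.pi_pos]; exact real_al pi_tr hx.2⟩)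
    obtain ⟨w₄, d1, d2, -⟩ := real_pol M e_tr log_pi_ne n
      {x | x ∈ polynomialValues M (Real.exp 1) n ∧
        ¬ AlgebraicIndependent ℚ ![Real.exp 1, Real.pi ^ x]}
      (fun x hx => ⟨hx.1, by rw [← rpow_eq Real.pi_pos]; exact real_al e_tr hx.2⟩)
    rw [hD] at a3 b3 c2 d2
    exact ⟨w₁, w₂, w₃, w₄, a1, b1, c1, d1, a3 (one_al _), b3 (one_al _), c2, d2⟩

end Pool.Agent.Results.MP_a2f59b_nt.RationalFunctionFamilies
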